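import Pool.Agent.H765R3.Peg.Conv

/-! A crossing principle for chords of a Jordan curve without inscribed squares, with a prescribed
direction of the pair of signed distances. -/

set_option autoImplicit false
open Complex Set Topology Metric

namespace Pool.Agent.TH829.Peg

open Pool.Agent.H763R2 Pool.Agent.H763R2.An Pool.Agent.H765R3.Peg
open Pool.Agent.H763R2.Dm (NoSq)

variable {c : ℝ → ℂ}

/-- The crossing principle along a ray. -/
theorem crossing_ray (L : Loop c) (J : Inj c) (nosq : NoSq (range c)) {G : ℝ × ℝ → ℝ}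
    (hG : Continuous G) (hper : ∀ x y, G (x + 1, y + 1) = G (x, y))
    (h0 : ∀ x, G (x, x) < 0) (h1 : ∀ x, 0 < G (x, x + 1)) (α : ℝ) :
    ∃ x y t, x < y ∧ y < x + 1 ∧ G (x, y) = 0 ∧ 0 < t ∧ mgc c (DD c x y) = t * Real.cos α ∧
      mgc c (CC c x y) = t * Real.sin α := by
  by_contra hcon
  have hM := (mgc_sg L).cont
  have cD := L.DD_cont
  have cC := L.CC_cont
  have hab : Real.sin α ^ 2 + Real.cos α ^ 2 = 1 := Real.sin_sq_add_cos_sq α
  set a := Real.cos α with ha
  set b := Real.sin α with hb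
  set f1 : ℝ × ℝ → ℝ := fun p => mgc c (DD c p.1 p.2) with hf1
  set f2 : ℝ × ℝ → ℝ := fun p => mgc c (CC c p.1 p.2) with hf2
  have c1 : Continuous f1 := hM.comp cD
  have c2 : Continuous f2 := hM.comp cC
  have p1 : ∀ x y, f1 (x + 1, y + 1) = f1 (x, y) := fun x y => by
    simp only [hf1, L.DD_per]
  have p2 : ∀ x y, f2 (x + 1, y + 1) = f2 (x, y) := fun x y => by
    simp only [hf2, L.CC_per]
  have nzf : ∀ x y, x < y → y < x + 1 → ¬ (f1 (x, y) = 0 ∧ f2 (x, y) = 0) := by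
    rintro x y hx hy ⟨e1, e2⟩
    exact nz L J (mgc_sg L) nosq hx hy ⟨e1, e2⟩
  -- the components along the ray and across it
  set u : ℝ × ℝ → ℝ := fun p => f1 p * a + f2 p * b with hu
  set v : ℝ × ℝ → ℝ := fun p => f2 p * a - f1 p * b with hv
  have cu : Continuous u := by fun_prop
  have cv : Continuous v := by fun_prop
  have pu : ∀ x y, u (x + 1, y + 1) = u (x, y) := fun x y => by simp only [hu, p1, p2]
  have pv : ∀ x y, v (x + 1, y + 1) = v (x, y) := fun x y => by simp only [hv, p1, p2]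
  have f1uv : ∀ p, f1 p = u p * a - v p * b := fun p => by
    simp only [hu, hv]; linear_combination (-(f1 p)) * hab
  have f2uv : ∀ p, f2 p = u p * b + v p * a := fun p => by
    simp only [hu, hv]; linear_combination (-(f2 p)) * hab
  have nzu : ∀ x y, x < y → y < x + 1 → ¬ (u (x, y) = 0 ∧ v (x, y) = 0) := by
    rintro x y hx hy ⟨e1, e2⟩
    refine nzf x y hx hy ⟨?_, ?_⟩
    · rw [f1uv, e1, e2]; ring
    · rw [f2uv, e1, e2]; ring
  -- the compact fundamental domain
  set Kc : Set (ℝ × ℝ) := {p | p.1 ∈ Icc (0:ℝ) 1 ∧ p.1 ≤ p.2 ∧ p.2 ≤ p.1 + 1} with hKc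
  have cK : IsCompact Kc := by
    refine (isCompact_Icc (a := (0:ℝ)) (b := 1)).prod (isCompact_Icc (a := (0:ℝ)) (b := 2))
      |>.of_isClosed_subset ?_ ?_
    · exact (isClosed_Icc.preimage continuous_fst).inter
        ((isClosed_le continuous_fst continuous_snd).inter
          (isClosed_le continuous_snd (continuous_fst.add continuous_const)))
    · rintro ⟨x, y⟩ ⟨⟨a1, a2⟩, a3, a4⟩
      simp only at a1 a2 a3 a4
      exact ⟨⟨a1, a2⟩, by simp; linarith, by simp; linarith⟩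
  set Z : Set (ℝ × ℝ) := Kc ∩ ({p | v p = 0} ∩ ({p | 0 ≤ u p} ∩ {p | 0 ≤ G p})) with hZ
  have cZ : IsCompact Z := cK.inter_right ((isClosed_eq cv continuous_const).inter
    ((isClosed_le continuous_const cu).inter (isClosed_le continuous_const hG)))
  have pZ : ∀ p ∈ Z, 0 < G p := by
    rintro ⟨x, y⟩ ⟨⟨hx, hxy, hyx⟩, a1, a2, a3⟩
    simp only [mem_ofPred_eq] at hx hxy hyx a1 a2 a3
    rcases a3.lt_or_eq with h | h
    · exact h
    exfalso
    rcases hxy.lt_or_eq with h' | h'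
    · rcases hyx.lt_or_eq with h'' | h''
      · have hu0 : 0 < u (x, y) := lt_of_le_of_ne a2 fun e => nzu x y h' h'' ⟨e.symm, a1⟩
        refine hcon ⟨x, y, u (x, y), h', h'', h.symm, hu0, ?_, ?_⟩
        · have := f1uv (x, y); rw [a1, zero_mul, sub_zero] at this; exact this
        · have := f2uv (x, y); rw [a1, zero_mul, add_zero] at this; exact this
      · have := h1 x
        rw [← h'', ← h] at this
        exact lt_irrefl _ this
    · have := h0 x
      rw [show ((x, x) : ℝ × ℝ) = (x, y) by rw [h'], ← h] at this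
      exact lt_irrefl _ this
  obtain ⟨δ, hδ, hδZ⟩ : ∃ δ > 0, ∀ p ∈ Z, δ ≤ G p := by
    rcases Z.eq_empty_or_nonempty with h | h
    · exact ⟨1, one_pos, fun p hp => by rw [h] at hp; exact absurd hp (notMem_empty p)⟩
    · obtain ⟨p, hp, hmin⟩ := cZ.exists_isMinOn h hG.continuousOn
      exact ⟨G p, pZ p hp, fun q hq => hmin hq⟩
  obtain ⟨Bd, hBd⟩ := cK.exists_bound_of_continuousOn cu.continuousOn
  have hB0 : 0 ≤ Bd := (norm_nonneg _).trans (hBd (0, 0) ⟨⟨le_rfl, zero_le_one⟩, le_rfl, by simp⟩)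
  set K : ℝ := (Bd + 1) / δ with hK
  have K0 : 0 < K := by positivity
  have hKδ : K * δ = Bd + 1 := by rw [hK]; field_simp
  set m : ℝ × ℝ → ℝ := fun p => K * max (G p) 0 with hm
  have cm : Continuous m := by fun_prop
  have pm : ∀ x y, m (x + 1, y + 1) = m (x, y) := fun x y => by simp only [hm, hper]
  set g : ℝ × ℝ → ℂ := fun p => ((u p - m p : ℝ) : ℂ) + ((v p : ℝ) : ℂ) * I with hg
  have cg : Continuous g := by
    rw [hg]
    exact (continuous_ofReal.comp (cu.sub cm)).add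
      ((continuous_ofReal.comp cv).mul continuous_const)
  have pg : ∀ x y, g (x + 1, y + 1) = g (x, y) := fun x y => by
    simp only [hg, pu, pv, pm]
  have g_re : ∀ p, (g p).re = u p - m p := fun p => by simp [hg]
  have g_im : ∀ p, (g p).im = v p := fun p => by simp [hg]
  have gz : ∀ x y, x < y → y < x + 1 → g (x, y) ≠ 0 := by
    intro x y hx hy hgz
    have e1 := congrArg Complex.re hgz
    have e2 := congrArg Complex.im hgz
    rw [g_re, zero_re, sub_eq_zero] at e1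
    rw [g_im, zero_im] at e2
    rcases le_or_gt (G (x, y)) 0 with h | h
    · have : m (x, y) = 0 := by simp only [hm]; rw [max_eq_right h, mul_zero]
      rw [this] at e1
      exact nzu x y hx hy ⟨e1, e2⟩
    · have hmv : m (x, y) = K * G (x, y) := by simp only [hm]; rw [max_eq_left h.le]
      have hxx : x + ((-⌊x⌋ : ℤ) : ℝ) = Int.fract x := by push_cast; rw [Int.fract]; ring
      have q1 := per_int2 pu x y (-⌊x⌋)
      have q2 := per_int2 pv x y (-⌊x⌋)
      have q3 := per_int2 hper x y (-⌊x⌋)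
      set P : ℝ × ℝ := (x + ((-⌊x⌋ : ℤ) : ℝ), y + ((-⌊x⌋ : ℤ) : ℝ)) with hP
      have hPK : P ∈ Kc := by
        refine ⟨?_, ?_, ?_⟩
        · show x + ((-⌊x⌋ : ℤ) : ℝ) ∈ Icc (0:ℝ) 1
          rw [hxx]; exact ⟨Int.fract_nonneg x, (Int.fract_lt_one x).le⟩
        · show x + ((-⌊x⌋ : ℤ) : ℝ) ≤ y + ((-⌊x⌋ : ℤ) : ℝ); linarith
        · show y + ((-⌊x⌋ : ℤ) : ℝ) ≤ x + ((-⌊x⌋ : ℤ) : ℝ) + 1; linarith
      have hPos : 0 ≤ K * G (x, y) := by positivity
      have hPZ : P ∈ Z := ⟨hPK, by show v P = 0; rw [q2, e2],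
        by show 0 ≤ u P; rw [q1, e1, hmv]; exact hPos, by show 0 ≤ G P; rw [q3]; exact h.le⟩
      have b1 := hδZ P hPZ
      have b2 := hBd P hPK
      rw [q1, e1, hmv, Real.norm_of_nonneg hPos] at b2
      rw [q3] at b1
      have : K * δ ≤ K * G (x, y) := mul_le_mul_of_nonneg_left b1 K0.le
      linarith
  -- lift
  have hne : UU.Nonempty := ⟨(0, 1/2), by norm_num [UU]⟩
  have : ContractibleSpace UU := UU_convex.contractibleSpace hne
  have : LocallyPathConnectedSpace UU := UU_open.locallyPathConnectedSpace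
  obtain ⟨k, hk, hke⟩ := H777R2.exists_log (X := UU) (g := fun p => g p.1)
    (cg.comp continuous_subtype_val) (fun p => gz p.1.1 p.1.2 p.2.1 p.2.2)
  have hsh : ∀ p : UU, ((p.1.1 + 1, p.1.2 + 1) : ℝ × ℝ) ∈ UU := by
    rintro ⟨⟨x, y⟩, h1, h2⟩
    simp only at h1 h2
    exact ⟨by simp; linarith, by simp; linarith⟩
  have hconst := H777R2.exp_const (X := UU)
    (k := fun p => k ⟨(p.1.1 + 1, p.1.2 + 1), hsh p⟩ - k p)
    ((hk.comp (by fun_prop)).sub hk) (c := 1) (fun p => by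
      rw [exp_sub, hke, hke]
      simp only [pg]
      exact div_self (gz p.1.1 p.1.2 p.2.1 p.2.2))
  -- near the upper boundary
  have z1 : ∀ x, mgc c (DD c x (x + 1)) = 0 := fun x => by
    rw [(mgc_sg L).zero L]
    refine ⟨x, ?_⟩
    unfold DD Sq.Dv
    rw [L.per]; ring
  have z2 : ∀ x, mgc c (CC c x (x + 1)) = 0 := fun x => by
    rw [(mgc_sg L).zero L]
    refine ⟨x, ?_⟩
    unfold CC Sq.Cv
    rw [L.per]; ring
  obtain ⟨η1, hη1, u1⟩ := near_diag (H := fun p => m p - u p) (cm.sub cu)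
    (fun x y => by simp only [pm, pu]) (e := 1) (s := -1) (fun x => by
      simp only [hu, hf1, hf2, z1, z2, zero_mul, add_zero, sub_zero, hm]
      rw [max_eq_left (h1 x).le]
      exact mul_pos K0 (h1 x))
  obtain ⟨η3, hη3, u3⟩ := near_diag (H := fun p => - G p) hG.neg
    (fun x y => by simp only [hper]) (e := 0) (s := 1) (fun x => by
      rw [add_zero]; have := h0 x; linarith)
  obtain ⟨η, hη, a1, a3, a4⟩ : ∃ η : ℝ, 0 < η ∧ η < η1 ∧ η < η3 ∧ η < 1 := by
    refine ⟨min η1 (min η3 1) / 2, by positivity, ?_, ?_, ?_⟩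
    all_goals
      have h5 : 0 < min η1 (min η3 1) := by positivity
      have h6 := min_le_left η1 (min η3 1)
      have h7 := min_le_right η1 (min η3 1)
      have h10 := min_le_left η3 1
      have h11 := min_le_right η3 1
      linarith
  -- constant increment is zero
  have mem1 : ∀ s : ℝ, ((s, s + 1 + -1 * η) : ℝ × ℝ) ∈ UU := fun s =>
    ⟨by simp only; linarith, by simp only; linarith⟩
  have inc0 : k ⟨(1, 1 + 1 + -1 * η), mem1 1⟩ - k ⟨(0, 0 + 1 + -1 * η), mem1 0⟩ = 0 := by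
    have := H777R2.side (g := fun s : ℝ => g (s, s + 1 + -1 * η))
      (k := fun s : ℝ => k ⟨(s, s + 1 + -1 * η), mem1 s⟩) (cg.comp (by fun_prop))
      (hk.comp (by fun_prop)) (fun s => hke _) (c := -1) (fun s => by
        have b1 := u1 η ⟨hη, a1⟩ s
        have e : (g (s, s + 1 + -1 * η) / (-1)).re =
            m (s, s + 1 + -1 * η) - u (s, s + 1 + -1 * η) := by
          rw [div_neg, div_one, neg_re, g_re]; ring
        rw [e]; exact b1) 1 0
    rw [this]
    have e : g (1, 1 + 1 + -1 * η) = g (0, 0 + 1 + -1 * η) := by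
      have := pg 0 (0 + 1 + -1 * η)
      rw [← this]; congr 2 <;> ring
    rw [e, sub_self]
  -- near the lower boundary
  obtain ⟨θ, n, A, ho⟩ := exists_odd L J nosq
  have mem2 : ∀ s : ℝ, ((s, s + 0 + 1 * η) : ℝ × ℝ) ∈ UU := fun s =>
    ⟨by simp only; linarith, by simp only; linarith⟩
  have hlow : ∀ s : ℝ, g (s, s + 0 + 1 * η) =
      ((u (s, s + 0 + 1 * η) : ℝ) : ℂ) + ((v (s, s + 0 + 1 * η) : ℝ) : ℂ) * I := fun s => by
    have b3 := u3 η ⟨hη, a3⟩ s
    have : m (s, s + 0 + 1 * η) = 0 := by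
      simp only [hm]; rw [max_eq_right (by linarith), mul_zero]
    simp only [hg, this, sub_zero]
  have key : ∀ s : ℝ, exp ((((k ⟨(s, s + 0 + 1 * η), mem2 s⟩).im -
      θ s (s + 0 + 1 * η) : ℝ) : ℂ) * I) = exp ((-α : ℝ) * I) := by
    intro s
    obtain ⟨ρ, hρ, r1, r2⟩ := A.ex s (s + 0 + 1 * η) (mem2 s).1 (mem2 s).2
    have e1 := hke ⟨(s, s + 0 + 1 * η), mem2 s⟩
    simp only at e1
    rw [hlow s] at e1
    simp only [hu, hv, hf1, hf2, r1, r2] at e1
    set κ := k ⟨(s, s + 0 + 1 * η), mem2 s⟩ with hκ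
    set T := θ s (s + 0 + 1 * η) with hT
    have e2 : (((ρ * Real.cos T) * a + (ρ * Real.sin T) * b : ℝ) : ℂ) +
        (((ρ * Real.sin T) * a - (ρ * Real.cos T) * b : ℝ) : ℂ) * I =
        (ρ : ℂ) * exp (((T - α : ℝ) : ℂ) * I) := by
      rw [exp_mul_I, ← ofReal_cos, ← ofReal_sin, Real.cos_sub, Real.sin_sub, ← ha, ← hb]
      push_cast
      ring
    rw [e2] at e1
    have hnorm : Real.exp κ.re = ρ := by
      have := congrArg norm e1
      rwa [norm_exp, norm_mul, norm_exp_ofReal_mul_I, mul_one, norm_real,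
        Real.norm_of_nonneg hρ.le] at this
    have e3 : exp κ = (ρ : ℂ) * exp ((κ.im : ℂ) * I) := by
      conv_lhs => rw [← re_add_im κ]
      rw [exp_add, ← ofReal_exp, hnorm]
    rw [e3] at e1
    have hρ' : (ρ : ℂ) ≠ 0 := by exact_mod_cast hρ.ne'
    have e4 : exp ((κ.im : ℂ) * I) = exp (((T - α : ℝ) : ℂ) * I) :=
      mul_left_cancel₀ hρ' e1
    rw [ofReal_sub, sub_mul, exp_sub, e4, ← exp_sub]
    congr 1
    push_cast
    ring
  have cθ : Continuous fun s : ℝ => θ s (s + 0 + 1 * η) :=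
    A.path (p := fun s => (s, s + 0 + 1 * η)) (by fun_prop) mem2
  have ck : Continuous fun s : ℝ => k ⟨(s, s + 0 + 1 * η), mem2 s⟩ := hk.comp (by fun_prop)
  have hc2 := H777R2.exp_const (X := ℝ)
    (k := fun s : ℝ => (((k ⟨(s, s + 0 + 1 * η), mem2 s⟩).im -
      θ s (s + 0 + 1 * η) : ℝ) : ℂ) * I)
    (by
      have h3 : Continuous fun s : ℝ => (k ⟨(s, s + 0 + 1 * η), mem2 s⟩).im :=
        continuous_im.comp ck
      exact (continuous_ofReal.comp (h3.sub cθ)).mul continuous_const)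
    key 1 0
  have hc3 : (k ⟨(1, 1 + 0 + 1 * η), mem2 1⟩).im - θ 1 (1 + 0 + 1 * η) =
      (k ⟨(0, 0 + 0 + 1 * η), mem2 0⟩).im - θ 0 (0 + 0 + 1 * η) := by
    have := congrArg Complex.im hc2
    simpa using this
  have hθ := A.per 0 (0 + 0 + 1 * η) (mem2 0).1 (mem2 0).2
  have e5 : θ 1 (1 + 0 + 1 * η) = θ (0 + 1) (0 + 0 + 1 * η + 1) := by congr 1 <;> ring
  rw [e5, hθ] at hc3
  -- compare the increments
  have hi1 := hconst ⟨(0, 0 + 0 + 1 * η), mem2 0⟩ ⟨(0, 0 + 1 + -1 * η), mem1 0⟩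
  simp only at hi1
  have t1 : (⟨((0:ℝ) + 1, 0 + 1 + -1 * η + 1), hsh ⟨(0, 0 + 1 + -1 * η), mem1 0⟩⟩ : UU) =
      ⟨(1, 1 + 1 + -1 * η), mem1 1⟩ := by
    apply Subtype.ext; simp only [Prod.mk.injEq]; constructor <;> ring
  have t2 : (⟨((0:ℝ) + 1, 0 + 0 + 1 * η + 1), hsh ⟨(0, 0 + 0 + 1 * η), mem2 0⟩⟩ : UU) =
      ⟨(1, 1 + 0 + 1 * η), mem2 1⟩ := by
    apply Subtype.ext; simp only [Prod.mk.injEq]; constructor <;> ring
  rw [t1, t2, inc0] at hi1
  have hi2 := congrArg Complex.im hi1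
  rw [sub_im, zero_im] at hi2
  have hn : n * (2 * Real.pi) = 0 := by linarith
  have hπ := Real.pi_pos
  have hn0 : (n : ℝ) = 0 := by
    rcases mul_eq_zero.1 hn with h | h
    · exact h
    · linarith
  have : n = 0 := by exact_mod_cast hn0
  rw [this] at ho
  exact absurd ho (by decide)

end Pool.Agent.TH829.Peg
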