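import Pool.Agent.TH829.Peg.Ray

/-! Closed sets of chords that separate the short from the long chords, and the gauge functions
they define. -/

set_option autoImplicit false
open Complex Set Topology Metric

namespace Pool.Agent.TH829.Peg

open Pool.Agent.H763R2 Pool.Agent.H763R2.An Pool.Agent.H765R3.Peg
open Pool.Agent.H763R2.Dm (NoSq)

/-- the closed strip of parameters of chords -/
def St : Set (ℝ × ℝ) := {p | p.1 ≤ p.2 ∧ p.2 ≤ p.1 + 1}

theorem St_convex : Convex ℝ St := by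
  rintro ⟨x, y⟩ ⟨h1, h2⟩ ⟨x', y'⟩ ⟨h1', h2'⟩ a b ha hb hab
  simp only at h1 h2 h1' h2'
  constructor
  · show a * x + b * x' ≤ a * y + b * y'
    nlinarith
  · show a * y + b * y' ≤ a * x + b * x' + 1
    nlinarith

/-- the retraction onto the strip -/
noncomputable def Rt (p : ℝ × ℝ) : ℝ × ℝ := (p.1, max p.1 (min p.2 (p.1 + 1)))

theorem Rt_cont : Continuous Rt := by unfold Rt; fun_prop

theorem Rt_mem (p : ℝ × ℝ) : Rt p ∈ St :=
  ⟨le_max_left _ _, max_le (by simp only [Rt]; linarith) (min_le_right _ _)⟩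

theorem Rt_id {p : ℝ × ℝ} (h : p ∈ St) : Rt p = p := by
  obtain ⟨x, y⟩ := p
  obtain ⟨h1, h2⟩ := h
  simp only at h1 h2
  simp only [Rt]
  rw [min_eq_left h2, max_eq_right h1]

theorem Rt_shift (p : ℝ × ℝ) : Rt (p + (1, 1)) = Rt p + (1, 1) := by
  obtain ⟨x, y⟩ := p
  simp only [Rt, Prod.mk_add_mk, Prod.mk.injEq, true_and]
  rw [min_add_add_right, max_add_add_right]

variable {S : Set (ℝ × ℝ)}

/-- chords reachable from the diagonal without meeting `S` -/
def Wr (S : Set (ℝ × ℝ)) : Set (ℝ × ℝ) := {p | ∃ a : ℝ, JoinedIn (St \ S) (a, a) p}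

theorem shift_St {p : ℝ × ℝ} : p + (1, 1) ∈ St ↔ p ∈ St := by
  obtain ⟨x, y⟩ := p
  simp only [St, Prod.mk_add_mk, mem_ofPred_eq]
  constructor
  · rintro ⟨h1, h2⟩; exact ⟨by linarith, by linarith⟩
  · rintro ⟨h1, h2⟩; exact ⟨by linarith, by linarith⟩

theorem Wr_shift_of (hper : ∀ p, p + (1, 1) ∈ S ↔ p ∈ S) {p : ℝ × ℝ} (h : p ∈ Wr S) :
    p + (1, 1) ∈ Wr S := by
  obtain ⟨a, γ, hγ⟩ := h
  refine ⟨a + 1, ?_⟩
  have e : ((a + 1, a + 1) : ℝ × ℝ) = (a, a) + (1, 1) := by simp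
  rw [e]
  refine ⟨(γ.map (f := fun q : ℝ × ℝ => q + (1, 1)) (by fun_prop)), fun t => ?_⟩
  exact ⟨shift_St.2 (hγ t).1, fun hs => (hγ t).2 ((hper _).1 hs)⟩

theorem Wr_shift (hper : ∀ p, p + (1, 1) ∈ S ↔ p ∈ S) {p : ℝ × ℝ} :
    p + (1, 1) ∈ Wr S ↔ p ∈ Wr S := by
  refine ⟨fun h => ?_, Wr_shift_of hper⟩
  obtain ⟨a, γ, hγ⟩ := h
  refine ⟨a - 1, ?_⟩
  have e : ((a - 1, a - 1) : ℝ × ℝ) = (a, a) + (-1, -1) := by simp; ring
  have e' : p = p + (1, 1) + (-1, -1) := by
    rw [add_assoc]; simp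
  rw [e, e']
  refine ⟨(γ.map (f := fun q : ℝ × ℝ => q + (-1, -1)) (by fun_prop)), fun t => ?_⟩
  have e2 : γ t + (-1, -1) + (1, 1) = γ t := by rw [add_assoc]; simp
  refine ⟨shift_St.1 ?_, fun hs => (hγ t).2 ?_⟩
  · show γ t + (-1, -1) + (1, 1) ∈ St
    rw [e2]; exact (hγ t).1
  · have := (hper (γ t + (-1, -1))).2 hs
    rwa [e2] at this

open Classical in
/-- the gauge of a separating set -/
noncomputable def Gg (S : Set (ℝ × ℝ)) (p : ℝ × ℝ) : ℝ :=
  if Rt p ∈ Wr S then -infDist (Rt p) S else infDist (Rt p) S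

theorem Wr_local {q q' : ℝ × ℝ} {ε : ℝ} (hb : ∀ z ∈ ball q ε, z ∉ S)
    (hq : q ∈ St) (hq' : q' ∈ St) (hd : q' ∈ ball q ε) : q' ∈ Wr S ↔ q ∈ Wr S := by
  have hε : 0 < ε := pos_of_mem_ball hd
  have hconv : Convex ℝ (ball q ε ∩ St) := (convex_ball q ε).inter St_convex
  have h1 : JoinedIn (St \ S) q q' := by
    have := (hconv.isPathConnected ⟨q, mem_ball_self hε, hq⟩).joinedIn q ⟨mem_ball_self hε, hq⟩
      q' ⟨hd, hq'⟩
    exact this.mono fun z hz => ⟨hz.2, hb z hz.1⟩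
  exact ⟨fun ⟨a, h⟩ => ⟨a, h.trans h1.symm⟩, fun ⟨a, h⟩ => ⟨a, h.trans h1⟩⟩

theorem Gg_cont (hS : IsClosed S) : Continuous (Gg S) := by
  rw [continuous_iff_continuousAt]
  intro p
  by_cases h : Rt p ∈ S
  · have h0 : Gg S p = 0 := by
      unfold Gg
      rw [infDist_zero_of_mem h]
      split_ifs <;> simp
    have habs : ∀ q, |Gg S q| ≤ dist (Rt q) (Rt p) := by
      intro q
      have : |Gg S q| = infDist (Rt q) S := by
        unfold Gg
        split_ifs
        · rw [abs_neg, abs_of_nonneg infDist_nonneg]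
        · rw [abs_of_nonneg infDist_nonneg]
      rw [this]
      exact infDist_le_dist_of_mem h
    rw [ContinuousAt, h0]
    refine squeeze_zero_norm habs ?_
    have hc : Continuous fun q => dist (Rt q) (Rt p) := Rt_cont.dist continuous_const
    have := hc.tendsto p
    simpa using this
  · obtain ⟨ε, hε, hb⟩ := Metric.isOpen_iff.1 hS.isOpen_compl (Rt p) h
    have hev : ∀ᶠ q in 𝓝 p, Rt q ∈ ball (Rt p) ε :=
      Rt_cont.continuousAt.eventually (ball_mem_nhds _ hε)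
    have hin : Continuous fun q => infDist (Rt q) S := (continuous_infDist_pt S).comp Rt_cont
    by_cases hw : Rt p ∈ Wr S
    · have : ContinuousAt (fun q => -infDist (Rt q) S) p := hin.neg.continuousAt
      refine this.congr (hev.mono fun q hq => ?_)
      have := (Wr_local (fun z hz => hb hz) (Rt_mem p) (Rt_mem q) hq).2 hw
      unfold Gg
      rw [if_pos this]
    · have : ContinuousAt (fun q => infDist (Rt q) S) p := hin.continuousAt
      refine this.congr (hev.mono fun q hq => ?_)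
      have := fun h' => hw ((Wr_local (fun z hz => hb hz) (Rt_mem p) (Rt_mem q) hq).1 h')
      unfold Gg
      rw [if_neg this]

theorem infDist_shift (hper : ∀ p, p + (1, 1) ∈ S ↔ p ∈ S) (p : ℝ × ℝ) :
    infDist (p + (1, 1)) S = infDist p S := by
  have h1 : Isometry fun q : ℝ × ℝ => q + (1, 1) := isometry_add_right _
  have h2 : (fun q : ℝ × ℝ => q + (1, 1)) '' S = S := by
    ext q
    constructor
    · rintro ⟨r, hr, rfl⟩; exact (hper r).2 hr
    · intro hq
      have e2 : q + (-1, -1) + (1, 1) = q := by rw [add_assoc]; simp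
      exact ⟨q + (-1, -1), (hper _).1 (by rw [e2]; exact hq), e2⟩
  have := infDist_image h1 (t := S) (x := p)
  rwa [h2] at this

theorem Gg_per (hper : ∀ p, p + (1, 1) ∈ S ↔ p ∈ S) (x y : ℝ) :
    Gg S (x + 1, y + 1) = Gg S (x, y) := by
  have e : ((x + 1, y + 1) : ℝ × ℝ) = (x, y) + (1, 1) := by simp
  unfold Gg
  rw [e, Rt_shift, infDist_shift hper]
  by_cases h : Rt (x, y) ∈ Wr S
  · rw [if_pos h, if_pos ((Wr_shift hper).2 h)]
  · rw [if_neg h, if_neg fun h' => h ((Wr_shift hper).1 h')]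

/-- `S` meets every family of chords that starts with a point and ends with the whole curve -/
def Meets (S : Set (ℝ × ℝ)) : Prop :=
  ∀ x y : ℝ → ℝ, ContinuousOn x (Icc 0 1) → ContinuousOn y (Icc 0 1) →
    (∀ s ∈ Icc (0:ℝ) 1, x s ≤ y s ∧ y s ≤ x s + 1) → y 0 = x 0 → y 1 = x 1 + 1 →
    ∃ s ∈ Icc (0:ℝ) 1, (x s, y s) ∈ S

theorem Meets.nonempty (h : Meets S) : S.Nonempty := by
  obtain ⟨s, -, hs⟩ := h (fun _ => 0) (fun s => s) continuousOn_const continuousOn_id
    (fun s hs => ⟨hs.1, by simpa using hs.2⟩) rfl (by simp)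
  exact ⟨_, hs⟩

theorem Meets.not_Wr (h : Meets S) (x : ℝ) : (x, x + 1) ∉ Wr S := by
  rintro ⟨a, γ, hγ⟩
  obtain ⟨s, hs, hm⟩ := h (fun s => (γ.extend s).1) (fun s => (γ.extend s).2)
    (continuous_fst.comp γ.continuous_extend).continuousOn
    (continuous_snd.comp γ.continuous_extend).continuousOn
    (fun s hs => by
      rw [γ.extend_apply hs]
      exact (hγ ⟨s, hs⟩).1)
    (by rw [γ.extend_zero]) (by rw [γ.extend_one])
  rw [Prod.mk.eta, γ.extend_apply hs] at hm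
  exact (hγ ⟨s, hs⟩).2 hm

variable {c : ℝ → ℂ}

/-- The crossing principle for separating sets. -/
theorem crossing_sep (L : Loop c) (J : Inj c) (nosq : NoSq (range c)) (hS : IsClosed S)
    (hper : ∀ x y, (x + 1, y + 1) ∈ S ↔ (x, y) ∈ S) (h0 : ∀ x, (x, x) ∉ S)
    (h1 : ∀ x, (x, x + 1) ∉ S) (hm : Meets S) (α : ℝ) :
    ∃ x y t, x < y ∧ y < x + 1 ∧ (x, y) ∈ S ∧ 0 < t ∧ mgc c (DD c x y) = t * Real.cos α ∧
      mgc c (CC c x y) = t * Real.sin α := by
  have hper' : ∀ p, p + (1, 1) ∈ S ↔ p ∈ S := fun p => hper p.1 p.2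
  have hne := hm.nonempty
  have pos : ∀ p, p ∉ S → 0 < infDist p S := fun p hp =>
    (hS.notMem_iff_infDist_pos hne).1 hp
  obtain ⟨x, y, t, hx, hy, hG, ht, e1, e2⟩ := crossing_ray L J nosq (Gg_cont hS)
    (Gg_per hper') (fun x => by
      have hmem : ((x, x) : ℝ × ℝ) ∈ St := ⟨le_rfl, by simp⟩
      have hw : ((x, x) : ℝ × ℝ) ∈ Wr S := ⟨x, JoinedIn.refl ⟨hmem, h0 x⟩⟩
      unfold Gg
      rw [Rt_id hmem, if_pos hw]
      have := pos _ (h0 x)
      linarith) (fun x => by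
      have hmem : ((x, x + 1) : ℝ × ℝ) ∈ St := ⟨by simp, le_rfl⟩
      unfold Gg
      rw [Rt_id hmem, if_neg (hm.not_Wr x)]
      exact pos _ (h1 x)) α
  refine ⟨x, y, t, hx, hy, ?_, ht, e1, e2⟩
  have hmem : ((x, y) : ℝ × ℝ) ∈ St := ⟨hx.le, hy.le⟩
  have hz : infDist (x, y) S = 0 := by
    unfold Gg at hG
    rw [Rt_id hmem] at hG
    split_ifs at hG with h
    · linarith
    · exact hG
  exact (hS.mem_iff_infDist_zero hne).2 hz

/-- a family of chords that starts with a point and ends with the whole curve passes over every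
point around which the curve winds -/
theorem passes (L : Loop c) {O : ℂ} {n : ℤ} (hn : n ≠ 0) {k : ℝ → ℂ} (hk : Continuous k)
    (he : ∀ t, exp (k t) = c t - O) (hkn : k 1 - k 0 = n * (2 * Real.pi * I)) {x y : ℝ → ℝ}
    (hx : ContinuousOn x (Icc 0 1)) (hy : ContinuousOn y (Icc 0 1)) (e0 : y 0 = x 0)
    (e1 : y 1 = x 1 + 1) :
    ∃ s ∈ Icc (0:ℝ) 1, O ∈ segment ℝ (c (x s)) (c (y s)) := by
  -- increments over a period
  have hinc : ∀ t, k (t + 1) - k t = n * (2 * Real.pi * I) := by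
    intro t
    have := H777R2.exp_const (X := ℝ) (k := fun t => k (t + 1) - k t)
      ((hk.comp (by fun_prop)).sub hk) (c := 1) (fun t => by
        rw [exp_sub, he, he, L.per]
        have : c t - O ≠ 0 := by rw [← he]; exact exp_ne_zero _
        exact div_self this) t 0
    rw [this, zero_add, hkn]
  set h : ℝ → ℝ := fun s => (k (y s) - k (x s)).im with hh
  have ch : ContinuousOn h (Icc 0 1) := by
    refine continuous_im.comp_continuousOn ?_
    exact (hk.comp_continuousOn hy).sub (hk.comp_continuousOn hx)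
  have h00 : h 0 = 0 := by simp [hh, e0]
  have h11 : h 1 = n * (2 * Real.pi) := by
    simp only [hh, e1, hinc]
    simp
  have hπ := Real.pi_pos
  obtain ⟨s, hs, hsv⟩ : ∃ s ∈ Icc (0:ℝ) 1, h s = Real.pi ∨ h s = -Real.pi := by
    rcases lt_or_gt_of_ne hn with h' | h'
    · have h2 : (n : ℝ) ≤ -1 := by
        have : n ≤ -1 := by omega
        exact_mod_cast this
      obtain ⟨s, hs, e⟩ := intermediate_value_Icc' zero_le_one ch
        (show -Real.pi ∈ Icc (h 1) (h 0) from ⟨by rw [h11]; nlinarith, by rw [h00]; linarith⟩)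
      exact ⟨s, hs, Or.inr e⟩
    · have h2 : (1 : ℝ) ≤ n := by
        have : 1 ≤ n := by omega
        exact_mod_cast this
      obtain ⟨s, hs, e⟩ := intermediate_value_Icc zero_le_one ch
        (show Real.pi ∈ Icc (h 0) (h 1) from ⟨by rw [h00]; linarith, by rw [h11]; nlinarith⟩)
      exact ⟨s, hs, Or.inl e⟩
  refine ⟨s, hs, ?_⟩
  set ρ : ℝ := Real.exp (k (y s) - k (x s)).re with hρ
  have ρ0 : 0 < ρ := Real.exp_pos _
  have hexp : exp (k (y s) - k (x s)) = -(ρ : ℂ) := by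
    conv_lhs => rw [← re_add_im (k (y s) - k (x s))]
    rw [exp_add, ← ofReal_exp, ← hρ]
    have : exp (((k (y s) - k (x s)).im : ℂ) * I) = -1 := by
      rcases hsv with e | e
      · rw [show (k (y s) - k (x s)).im = Real.pi from e, exp_pi_mul_I]
      · rw [show (k (y s) - k (x s)).im = -Real.pi from e]
        push_cast
        rw [neg_mul, Complex.exp_neg, exp_pi_mul_I, inv_neg, inv_one]
    rw [this]; ring
  rw [exp_sub, he, he] at hexp
  have hx0 : c (x s) - O ≠ 0 := by rw [← he]; exact exp_ne_zero _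
  rw [div_eq_iff hx0] at hexp
  refine ⟨ρ / (1 + ρ), 1 / (1 + ρ), by positivity, by positivity, by field_simp; ring, ?_⟩
  have h1ρ : (1 + ρ : ℂ) ≠ 0 := by
    have : (1 + ρ : ℝ) ≠ 0 := by positivity
    exact_mod_cast this
  rw [real_smul, real_smul]
  push_cast
  field_simp
  linear_combination hexp

end Pool.Agent.TH829.Peg
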